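import Pool.Agent.LCE.Scb

/-!
# LCF, part A: one block of primes
-/

set_option autoImplicit false

namespace LCF

open Finset Function ArithmeticFunction Filter Topology LCB LCD LCE

/-- The coefficient of the quadratic term. -/
noncomputable def Bq : ℝ := 40000 * ts

/-- The size of the loss. -/
noncomputable def ep : ℝ := ts / 800

theorem ep_pos : 0 < ep := by unfold ep; have := ts_pos; positivity

/-- The pointwise inequality at one scale. -/
theorem one_le_H {u r : ℝ} (h : -(dl / 2) ≤ u + r) : 1 ≤ Fm (u + dl) + Bq * r ^ 2 := by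
  have hts := ts_pos
  have hB : BB = 32000 := rfl
  have hd : dl = 1 / 2000 := rfl
  have hB0 : 0 ≤ Bq * r ^ 2 := by unfold Bq; positivity
  rcases le_or_gt 0 (u + dl) with hw | hw
  · have := Fm_ge_one hw
    linarith
  · obtain ⟨y, hy, hyw⟩ : ∃ y, 0 < y ∧ u + dl = -y := ⟨-(u + dl), by linarith, by ring⟩
    have e : Fm (u + dl) = 1 - ts * (y * (1 + y) ^ 2) + ts / BB * y ^ 4 := by
      rw [hyw]
      unfold Fm
      ring
    have hr1 : y ≤ r := by
      rw [hd] at h hyw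
      linarith
    have hr2 : 1 / 4000 ≤ r := by
      rw [hd] at h hyw
      linarith
    have hr0 : 0 < r := by linarith
    have h1 : y * (1 + y) ^ 2 ≤ 2 * y + 2 * y ^ 3 := by
      have : 0 ≤ y * (1 - y) ^ 2 := by positivity
      nlinarith
    have h2 : 2 * y ≤ 8000 * r ^ 2 := by nlinarith
    have h3 : 2 * y ^ 3 ≤ y ^ 4 / BB + BB * y ^ 2 := by
      rw [hB]
      have h4 : 0 ≤ y ^ 2 * (y - 32000) ^ 2 := by positivity
      have h5 : y ^ 4 / 32000 + 32000 * y ^ 2 - 2 * y ^ 3 = y ^ 2 * (y - 32000) ^ 2 / 32000 := by ring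
      have h6 : 0 ≤ y ^ 2 * (y - 32000) ^ 2 / 32000 := by positivity
      linarith
    have h4 : y ^ 2 ≤ r ^ 2 := pow_le_pow_left₀ hy.le hr1 2
    have h5 : y * (1 + y) ^ 2 ≤ y ^ 4 / BB + 40000 * r ^ 2 := by
      have h6 : BB * y ^ 2 ≤ BB * r ^ 2 := by
        have : 0 ≤ BB := by rw [hB]; norm_num
        gcongr
      rw [hB] at h6 h3 ⊢
      linarith
    have h6 : ts * (y * (1 + y) ^ 2) ≤ ts * (y ^ 4 / BB + 40000 * r ^ 2) := by gcongr
    rw [e]
    unfold Bq
    have h7 : ts * (y ^ 4 / BB + 40000 * r ^ 2) = ts / BB * y ^ 4 + 40000 * ts * r ^ 2 := by ring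
    linarith

theorem cosh_ge (y : ℝ) : 1 + y ^ 2 / 4 ≤ (Real.exp y + Real.exp (-y)) / 2 := by
  rcases le_or_gt 0 y with hy | hy
  · have h1 := Real.quadratic_le_exp_of_nonneg hy
    have h2 := Real.add_one_le_exp (-y)
    linarith
  · have h1 := Real.quadratic_le_exp_of_nonneg (show 0 ≤ -y by linarith)
    have h2 := Real.add_one_le_exp y
    have h3 : (-y) ^ 2 = y ^ 2 := by ring
    rw [h3] at h1
    linarith

/-- The exponent. -/
noncomputable def kap : ℝ := 12000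

theorem H_le (u r : ℝ) : Fm (u + dl) + Bq * r ^ 2 ≤
    (Fm (u + dl) + ep) * ((Real.exp (kap * r) + Real.exp (-(kap * r))) / 2) := by
  have hF := Fm_nonneg (u + dl)
  have hts := ts_pos
  have h1 := cosh_ge (kap * r)
  have h2 : Bq * r ^ 2 ≤ ep * ((kap * r) ^ 2 / 4) := by
    unfold Bq ep kap
    have h3 : 0 ≤ ts * r ^ 2 := by positivity
    nlinarith
  have he := ep_pos
  calc Fm (u + dl) + Bq * r ^ 2 ≤ Fm (u + dl) + ep * ((kap * r) ^ 2 / 4) := by linarith
    _ ≤ (Fm (u + dl) + ep) * (1 + (kap * r) ^ 2 / 4) := by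
        have h3 : 0 ≤ Fm (u + dl) * ((kap * r) ^ 2 / 4) := by positivity
        nlinarith
    _ ≤ _ := by gcongr

/-- The exponential moments of the contribution of a block to later scales. -/
theorem mgf_V {S : Finset ℕ} {Q : ℕ} (hQ : 0 < Q) (hS : ∀ p ∈ S, p.Prime) (hSQ : ∀ p ∈ S, p ∣ Q) {s a : ℝ} (hs : 0 < s)
    (ha : 0 < a) (hv : vS S ≤ s ^ 2) (I : Finset ℕ) (K : ℕ → ℕ) (sg : ℕ → ℝ) (hsg : ∀ j, |sg j| ≤ 1) (hK : ∀ j ∈ I, 0 < sK (K j))
    (hI : ∑ j ∈ I, 1 / sK (K j) ≤ 2 / (a * s)) (θ : ℝ) :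
    av Q (fun n => Real.exp (θ * ∑ j ∈ I, sg j * (Uf S (K j) n / sK (K j)))) ≤ Real.exp (2 * θ ^ 2 / a ^ 2) := by
  set c : ℝ := ∑ j ∈ I, 1 / sK (K j) with hc
  have hc0 : 0 ≤ c := sum_nonneg fun j hj => (one_div_pos.2 (hK j hj)).le
  set f : ℕ → ℕ → ℝ := fun p n => Real.log p * ∑ j ∈ I, sg j * (X p (K j) n / sK (K j)) with hf
  have e : ∀ n, ∑ j ∈ I, sg j * (Uf S (K j) n / sK (K j)) = ∑ p ∈ S, f p n := by
    intro n
    have h1 : ∀ j ∈ I, sg j * (Uf S (K j) n / sK (K j)) = ∑ p ∈ S, Real.log p * (sg j * (X p (K j) n / sK (K j))) := by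
      intro j _
      unfold Uf
      rw [sum_div, mul_sum]
      refine sum_congr rfl fun p _ => ?_
      ring
    rw [sum_congr rfl h1, sum_comm]
    refine sum_congr rfl fun p _ => ?_
    rw [← mul_sum]
  simp only [e]
  refine (mgf_sumv (c := fun p => Real.log p * c) hQ hS hSQ (fun p _ => ?_) (fun p hp n hn => ?_) (fun p hp n => ?_) θ).trans ?_
  · intro n
    change Real.log p * ∑ j ∈ I, sg j * (X p (K j) (n + p) / sK (K j)) = Real.log p * ∑ j ∈ I, sg j * (X p (K j) n / sK (K j))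
    congr 1
    exact sum_congr rfl fun j _ => by rw [X_per p (K j) n]
  · change Real.log p * ∑ j ∈ I, sg j * (X p (K j) (Q - 1 - n) / sK (K j)) = -(Real.log p * ∑ j ∈ I, sg j * (X p (K j) n / sK (K j)))
    rw [← mul_neg, ← sum_neg_distrib]
    congr 1
    refine sum_congr rfl fun j _ => ?_
    rw [X_odd (K j) (hSQ p hp) hn]
    ring
  · change |Real.log p * ∑ j ∈ I, sg j * (X p (K j) n / sK (K j))| ≤ Real.log p * c
    have h5 : 0 ≤ Real.log p := Real.log_nonneg (by exact_mod_cast (hS p hp).one_lt.le)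
    rw [abs_mul, abs_of_nonneg h5]
    refine mul_le_mul_of_nonneg_left ?_ h5
    refine (abs_sum_le_sum_abs _ _).trans (sum_le_sum fun j hj => ?_)
    rw [abs_mul, abs_div, abs_of_pos (hK j hj)]
    have h6 := X_abs_le p (K j) n
    calc |sg j| * (|X p (K j) n| / sK (K j)) ≤ 1 * (1 / sK (K j)) := by
          have h7 := hK j hj
          have h8 : |X p (K j) n| / sK (K j) ≤ 1 / sK (K j) := by gcongr
          exact mul_le_mul (hsg j) h8 (by positivity) zero_le_one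
      _ = 1 / sK (K j) := one_mul _
  · refine Real.exp_le_exp.2 ?_
    have h1 : ∑ p ∈ S, (Real.log p * c) ^ 2 = c ^ 2 * vS S := by
      unfold vS
      rw [mul_sum]
      refine sum_congr rfl fun p _ => ?_
      ring
    rw [h1]
    have h2 : c ^ 2 * vS S ≤ 4 / a ^ 2 := by
      calc c ^ 2 * vS S ≤ (2 / (a * s)) ^ 2 * s ^ 2 := by
            have h3 : c ^ 2 ≤ (2 / (a * s)) ^ 2 := pow_le_pow_left₀ hc0 hI 2
            have h4 : 0 ≤ vS S := by unfold vS; positivity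
            exact mul_le_mul h3 hv h4 (by positivity)
        _ = 4 / a ^ 2 := by field_simp; norm_num
    calc θ ^ 2 * (c ^ 2 * vS S) / 2 ≤ θ ^ 2 * (4 / a ^ 2) / 2 := by gcongr
      _ = 2 * θ ^ 2 / a ^ 2 := by ring

theorem Fm_sq_le (w : ℝ) : (Fm w + ep) ^ 2 ≤ 4 + w ^ 8 / 1000000000000 := by
  have hts := ts_pos
  have hB : BB = 32000 := rfl
  have ht : ts ≤ 1 / 1000000000000000 := by
    unfold ts
    rw [hB]
    norm_num
  have h1 : w * (1 - w) ^ 2 ≤ 4 * (1 + w ^ 4) := by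
    nlinarith [sq_nonneg (w ^ 2 - 1), sq_nonneg (w + 1), sq_nonneg (w - 1), sq_nonneg (w ^ 2 - w), sq_nonneg w]
  have h2 : Fm w ≤ 1 + 5 * ts * (1 + w ^ 4) := by
    unfold Fm
    have h3 : ts * (w * (1 - w) ^ 2) ≤ ts * (4 * (1 + w ^ 4)) := by gcongr
    have h4 : ts / BB * w ^ 4 ≤ ts * (1 + w ^ 4) := by
      have h5 : ts / BB ≤ ts := div_le_self hts.le (by rw [hB]; norm_num)
      have h6 : 0 ≤ w ^ 4 := by positivity
      calc ts / BB * w ^ 4 ≤ ts * w ^ 4 := by gcongr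
        _ ≤ ts * (1 + w ^ 4) := by gcongr; linarith
    linarith
  have hF := Fm_nonneg w
  have h3 : Fm w + ep ≤ 3 / 2 + (1 / 100000000000000) * w ^ 4 := by
    have h4 : 0 ≤ w ^ 4 := by positivity
    have h5 : 5 * ts * (1 + w ^ 4) ≤ 5 * (1 / 1000000000000000) * (1 + w ^ 4) := by gcongr
    unfold ep
    linarith
  have h4 : 0 ≤ Fm w + ep := by have := ep_pos; linarith
  calc (Fm w + ep) ^ 2 ≤ (3 / 2 + (1 / 100000000000000) * w ^ 4) ^ 2 := pow_le_pow_left₀ h4 h3 2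
    _ ≤ 4 + w ^ 8 / 1000000000000 := by
        have h5 : w ^ 8 = (w ^ 4) ^ 2 := by ring
        rw [h5]
        have h6 : 0 ≤ w ^ 4 := by positivity
        nlinarith [sq_nonneg (w ^ 4 - 1)]

/-- The mean of a factor. -/
theorem av_factor {S : Finset ℕ} {Q k : ℕ} (hQ : 0 < Q) (hS : ∀ p ∈ S, p.Prime) (hSQ : ∀ p ∈ S, p ∣ Q) (hs : 0 < sK k)
    (hv : vS S ≤ sK k ^ 2) (hF : av Q (fun n => Fm (Uf S k n / sK k + dl)) ≤ 1 - ts / 400) {V : ℕ → ℝ} {a : ℝ} (ha : 0 < a)
    (hV0 : av Q V = 0) (hV : av Q (fun n => Real.exp (2 * kap * V n)) ≤ Real.exp (2 * (2 * kap) ^ 2 / a ^ 2))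
    (ha2 : 10000000000000 ≤ a ^ 2 * ep ^ 2) :
    av Q (fun n => (Fm (Uf S k n / sK k + dl) + ep) * Real.exp (kap * V n)) ≤ 1 - ep / 2 := by
  have he := ep_pos
  set G : ℕ → ℝ := fun n => Fm (Uf S k n / sK k + dl) + ep with hG
  have e1 : av Q (fun n => G n * Real.exp (kap * V n)) = av Q G + av Q (fun n => G n * (Real.exp (kap * V n) - 1)) := by
    rw [← av_add]
    refine congrArg (av Q) (funext fun n => ?_)
    ring
  have e2 : av Q G ≤ 1 - ep := by
    rw [hG, av_add, av_const hQ]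
    unfold ep at *
    linarith
  have e3 : av Q (fun n => G n ^ 2) ≤ 6 := by
    have h1 : av Q (fun n => G n ^ 2) ≤ av Q (fun n => 5 + (128 / 1000000000000) * (Uf S k n / sK k) ^ 8) := by
      refine av_mono Q fun n => (Fm_sq_le _).trans ?_
      set u := Uf S k n / sK k with hu
      have h2 : (u + dl) ^ 8 ≤ 128 * (u ^ 8 + dl ^ 8) := by
        have h3 : (u + dl) ^ 2 ≤ 2 * (u ^ 2 + dl ^ 2) := by nlinarith [sq_nonneg (u - dl)]
        have h4 : (2 * (u ^ 2 + dl ^ 2)) ^ 4 ≤ 128 * (u ^ 8 + dl ^ 8) := by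
          have h5 : (u ^ 2 + dl ^ 2) ^ 2 ≤ 2 * (u ^ 4 + dl ^ 4) := by nlinarith [sq_nonneg (u ^ 2 - dl ^ 2)]
          have h6 : (u ^ 4 + dl ^ 4) ^ 2 ≤ 2 * (u ^ 8 + dl ^ 8) := by nlinarith [sq_nonneg (u ^ 4 - dl ^ 4)]
          calc (2 * (u ^ 2 + dl ^ 2)) ^ 4 = 16 * ((u ^ 2 + dl ^ 2) ^ 2) ^ 2 := by ring
            _ ≤ 16 * (2 * (u ^ 4 + dl ^ 4)) ^ 2 := by gcongr
            _ = 64 * (u ^ 4 + dl ^ 4) ^ 2 := by ring
            _ ≤ 64 * (2 * (u ^ 8 + dl ^ 8)) := by gcongr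
            _ = _ := by ring
        calc (u + dl) ^ 8 = ((u + dl) ^ 2) ^ 4 := by ring
          _ ≤ (2 * (u ^ 2 + dl ^ 2)) ^ 4 := pow_le_pow_left₀ (sq_nonneg _) h3 4
          _ ≤ _ := h4
      have h3 : dl ^ 8 ≤ 1 := by
        unfold dl
        norm_num
      linarith
    refine h1.trans ?_
    rw [av_add, av_const hQ, av_mul_left]
    have h2 : av Q (fun n => (Uf S k n / sK k) ^ 8) ≤
        av Q (fun n => 40320 * (Real.exp ((sK k)⁻¹ * Uf S k n) + Real.exp ((-(sK k)⁻¹) * Uf S k n))) := by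
      refine av_mono Q fun n => ?_
      have h := pow_le_fact_exp ((sK k)⁻¹ * Uf S k n) (n := 8) (by decide)
      have h3 : (Nat.factorial 8 : ℝ) = 40320 := by norm_num [Nat.factorial]
      rw [h3, ← neg_mul] at h
      rw [div_eq_inv_mul]
      exact h
    rw [av_mul_left, av_add] at h2
    have h3 := Uf_mgf hQ hS hSQ k (sK k)⁻¹
    have h4 := Uf_mgf hQ hS hSQ k (-(sK k)⁻¹)
    rw [neg_sq] at h4
    have h5 : (sK k)⁻¹ ^ 2 * vS S / 2 ≤ 1 := by
      have : (sK k)⁻¹ ^ 2 * vS S ≤ 1 := by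
        rw [inv_pow, inv_mul_le_iff₀ (by positivity), mul_one]
        exact hv
      linarith
    have h6 : Real.exp ((sK k)⁻¹ ^ 2 * vS S / 2) ≤ 3 := by
      refine (Real.exp_le_exp.2 h5).trans ?_
      have := Real.exp_one_lt_d9
      linarith
    linarith
  have e4 : av Q (fun n => (Real.exp (kap * V n) - 1) ^ 2) ≤ Real.exp (2 * (2 * kap) ^ 2 / a ^ 2) - 1 := by
    have h1 : ∀ n, (Real.exp (kap * V n) - 1) ^ 2 = Real.exp (2 * kap * V n) - (2 * Real.exp (kap * V n) - 1) := by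
      intro n
      have h2 : Real.exp (2 * kap * V n) = Real.exp (kap * V n) ^ 2 := by
        rw [← Real.exp_nat_mul]
        congr 1
        push_cast
        ring
      rw [h2]
      ring
    simp only [h1]
    rw [av_sub, av_sub, av_mul_left, av_const hQ]
    have h2 : 1 ≤ av Q (fun n => Real.exp (kap * V n)) := by
      have h3 : av Q (fun n => 1 + kap * V n) ≤ av Q (fun n => Real.exp (kap * V n)) := by
        refine av_mono Q fun n => ?_
        have := Real.add_one_le_exp (kap * V n)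
        linarith
      rw [av_add, av_const hQ, av_mul_left, hV0, mul_zero, add_zero] at h3
      exact h3
    linarith
  have e5 : Real.exp (2 * (2 * kap) ^ 2 / a ^ 2) - 1 ≤ ep ^ 2 / 24 := by
    have ha0 : 0 < a ^ 2 := by positivity
    have h1 : 2 * (2 * kap) ^ 2 / a ^ 2 ≤ ep ^ 2 / 48 := by
      rw [div_le_iff₀ ha0]
      unfold kap
      nlinarith
    have h2 : ep ^ 2 / 48 ≤ 1 / 2 := by
      have h3 : ep ≤ 1 := by
        unfold ep ts BB
        norm_num
      have h4 : ep ^ 2 ≤ 1 := pow_le_one₀ he.le h3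
      linarith
    have h3 : Real.exp (ep ^ 2 / 48) ≤ 1 + 2 * (ep ^ 2 / 48) := by
      have h4 := Real.exp_bound_div_one_sub_of_interval (x := ep ^ 2 / 48) (by positivity) (by linarith)
      refine h4.trans ?_
      have h5 : 0 < 1 - ep ^ 2 / 48 := by linarith
      rw [div_le_iff₀ h5]
      have h6 : 0 ≤ ep ^ 2 / 48 := by positivity
      nlinarith
    have h4 := Real.exp_le_exp.2 h1
    linarith
  have e6 : av Q (fun n => G n * (Real.exp (kap * V n) - 1)) ≤ ep / 2 := by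
    have h1 := av_cs Q G (fun n => Real.exp (kap * V n) - 1)
    have h2 : av Q (fun n => G n ^ 2) * av Q (fun n => (Real.exp (kap * V n) - 1) ^ 2) ≤ 6 * (ep ^ 2 / 24) := by
      have h3 : 0 ≤ av Q (fun n => (Real.exp (kap * V n) - 1) ^ 2) := av_nonneg Q fun n => sq_nonneg _
      exact mul_le_mul e3 (e4.trans e5) h3 (by norm_num)
    have h3 : (av Q (fun n => G n * (Real.exp (kap * V n) - 1))) ^ 2 ≤ (ep / 2) ^ 2 := by
      refine h1.trans (h2.trans (le_of_eq ?_))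
      ring
    exact (abs_le_of_sq_le_sq' h3 (by positivity)).2
  rw [e1]
  linarith

end LCF
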