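import Pool.Agent.LCF.Tot

/-!
# LCF, part C: the counting theorem and its final form
-/

set_option autoImplicit false

namespace LCF

open Finset Function ArithmeticFunction Filter Topology LCB LCD LCE

theorem PB_Fm {Q K : ℕ} (hK : 1 ≤ K) {φ : ℕ → ℝ} (h : PB Q K φ) : PB Q (K ^ 4) (fun n => Fm (φ n + dl)) := by
  have h1 : PB Q K (fun n => φ n + dl) := PB.add h (PB.const' Q hK dl)
  have h2 : PB Q K (fun n => 1 - (φ n + dl)) := PB.sub (PB.const' Q hK 1) h1
  have h3 := (PB.mul h1 (h2.pow 2)).smul ts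
  have h4 : PB Q (K ^ 4) (fun n => ts * ((φ n + dl) * (1 - (φ n + dl)) ^ 2)) := by
    refine h3.mono ?_
    calc K * K ^ 2 = K ^ 3 := by ring
      _ ≤ K ^ 4 := Nat.pow_le_pow_right hK (by norm_num)
  have h5 := (h1.pow 4).smul (ts / BB)
  exact PB.add (PB.add (PB.const' Q (Nat.one_le_pow _ _ hK) 1) h4) h5

open scoped Classical in
theorem count_G : ∃ k0 a : ℕ, 2 ≤ k0 ∧ 10 ≤ a ∧ ∀ M J w N : ℕ, k0 ≤ M → 2 * (M * (a ^ 2) ^ J) ^ 2 + M * (a ^ 2) ^ J ≤ w →
    1 ≤ N → (M * (a ^ 2) ^ J) ^ (4 * J) ≤ 2 * N →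
    (((Ico w (w + N)).filter (fun n => ∀ j < J, In (M * (a ^ 2) ^ (j + 1)) n)).card : ℝ) ≤ 8 * N * (1 - ep / 2) ^ J := by
  have he := ep_pos
  have hep1 : ep ≤ 1 / 10 := by
    unfold ep ts BB
    norm_num
  obtain ⟨k1, hk1, hsc1⟩ := LCD.scale
  obtain ⟨C, hC, k2, hk2, hsc2⟩ := scale2
  obtain ⟨a0, ha0⟩ := exists_nat_ge (10000000 / ep)
  set a := max a0 10 with ha
  have ha10 : 10 ≤ a := le_max_right _ _
  have har : (10 : ℝ) ≤ a := by exact_mod_cast ha10
  have ha2 : 10000000000000 ≤ (a : ℝ) ^ 2 * ep ^ 2 := by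
    have h1 : 10000000 / ep ≤ a := ha0.trans (by exact_mod_cast le_max_left a0 10)
    rw [div_le_iff₀ he] at h1
    have h2 : (10000000 : ℝ) ^ 2 ≤ ((a : ℝ) * ep) ^ 2 := pow_le_pow_left₀ (by norm_num) h1 2
    rw [mul_pow] at h2
    linarith
  have ev : ∀ᶠ k : ℕ in atTop, (2 * C / dl) ^ 2 ≤ Real.log (k : ℝ) :=
    (Real.tendsto_log_atTop.comp tendsto_natCast_atTop_atTop).eventually_ge_atTop _
  obtain ⟨k3, hk3⟩ := eventually_atTop.1 ev
  refine ⟨max (max k1 k2) (max k3 (a ^ 2)), a, ?_, ha10, fun M J w N hM hw hN1 hN => ?_⟩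
  · exact hk1.trans ((le_max_left k1 k2).trans (le_max_left _ _))
  have hMk1 : k1 ≤ M := ((le_max_left k1 k2).trans (le_max_left _ _)).trans hM
  have hMk2 : k2 ≤ M := ((le_max_right k1 k2).trans (le_max_left _ _)).trans hM
  have hMk3 : k3 ≤ M := ((le_max_left k3 (a ^ 2)).trans (le_max_right _ _)).trans hM
  have hMa : a ^ 2 ≤ M := ((le_max_right k3 (a ^ 2)).trans (le_max_right _ _)).trans hM
  have hM2 : 2 ≤ M := hk1.trans hMk1
  have hA100 : 100 ≤ a ^ 2 := by nlinarith
  set K := M * (a ^ 2) ^ J with hK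
  have hA1 : 1 ≤ a ^ 2 := by omega
  have hK1 : 1 ≤ K := Nat.mul_pos (by omega) (Nat.pow_pos hA1)
  set z : ℕ → ℕ := fun j => M * (a ^ 2) ^ j with hz
  set k : ℕ → ℕ := fun j => M * (a ^ 2) ^ (j + 1) with hk
  have hkz : ∀ j, k j = a ^ 2 * z j := fun j => by simp only [hk, hz]; rw [pow_succ]; ring
  have hzM : ∀ j, M ≤ z j := fun j => Nat.le_mul_of_pos_right _ (Nat.pow_pos hA1)
  have hzk : ∀ j, z j ≤ k j := fun j => by rw [hkz]; exact Nat.le_mul_of_pos_left _ hA1
  have hkK : ∀ j, j < J → k j ≤ K := fun j hj => Nat.mul_le_mul_left _ (Nat.pow_le_pow_right hA1 (by omega))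
  have c1 : ∀ j, 100 * z j ≤ k j := fun j => by rw [hkz]; exact Nat.mul_le_mul_right _ hA100
  have c2 : ∀ j, k j ≤ z j ^ 2 := fun j => by rw [hkz, sq (z j)]; exact Nat.mul_le_mul_right _ (hMa.trans (hzM j))
  have s1 := fun j => hsc1 (z j) (k j) (hMk1.trans ((hzM j).trans (hzk j))) (c1 j) (c2 j)
  have s2 := fun j => hsc2 (z j) (k j) (hMk2.trans ((hzM j).trans (hzk j))) (c1 j) (c2 j)
  set Q := Qn K with hQ
  have hQ0 : 0 < Q := Qn_pos K
  set T : ℕ → ℝ := fun n => ∏ j ∈ range J, (Fm (uu (z j) (k j) n + dl) + Bq * rr (z j) (k j) n ^ 2) with hT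
  have hBq : 0 ≤ Bq := by unfold Bq; have := ts_pos; positivity
  have hT0 : ∀ n, 0 ≤ T n := fun n => prod_nonneg fun j _ =>
    add_nonneg (Fm_nonneg _) (mul_nonneg hBq (sq_nonneg _))
  have hT1 : ∀ n, w ≤ n → (∀ j < J, In (M * (a ^ 2) ^ (j + 1)) n) → 1 ≤ T n := by
    intro n hn hall
    calc (1 : ℝ) = ∏ _j ∈ range J, 1 := by rw [prod_const_one]
      _ ≤ T n := by
          refine prod_le_prod (fun _ _ => zero_le_one) fun j hj => ?_
          rw [mem_range] at hj
          refine one_le_H ?_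
          have h1 := (s2 j).2 n (by
            have h2 := hkK j hj
            have h3 : (k j) ^ 2 ≤ K ^ 2 := Nat.pow_le_pow_left h2 2
            omega) (hall j hj)
          refine le_trans ?_ h1
          rw [neg_le_neg_iff]
          have h2 := hk3 (k j) (hMk3.trans ((hzM j).trans (hzk j)))
          have hdl : 0 < dl := by unfold dl; norm_num
          have h3 : 2 * C / dl ≤ √(Real.log (k j)) := Real.le_sqrt_of_sq_le h2
          have h4 : 0 < √(Real.log (k j)) := lt_of_lt_of_le (by positivity) h3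
          rw [div_le_iff₀ h4]
          rw [div_le_iff₀ hdl] at h3
          linarith
  have hTPB : PB Q (K ^ (4 * J)) T := by
    have h1 := PB.prod (Q := Q) (R := K ^ 4) (s := range J)
      (φ := fun j n => Fm (uu (z j) (k j) n + dl) + Bq * rr (z j) (k j) n ^ 2) (fun j hj => by
        rw [mem_range] at hj
        have hu : PB Q K (uu (z j) (k j)) := (PB_Uf hK1 (hkK j hj) (k j)).div (sK (k j))
        have hr : PB Q K (rr (z j) (k j)) := (PB_Uf hK1 ((hzk j).trans (hkK j hj)) (k j)).div (sK (k j))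
        refine PB.add (PB_Fm hK1 hu) (((hr.pow 2).smul Bq).mono (Nat.pow_le_pow_right hK1 (by norm_num))))
    rw [card_range, ← pow_mul] at h1
    exact h1
  have aT : av Q T ≤ 2 * (1 - ep / 2) ^ J :=
    av_total hM2 (by omega) ha2 hQ0 (fun p hp => pr_dvd (le_refl K) hp)
      (fun j hj => (s1 j).2.1 Q hQ0 (fun p hp => pr_dvd (hkK j hj) hp))
  have hfej := fejer hQ0 hN1 hN hTPB hT0 w
  set gd : ℕ → ℝ := fun n => if ∀ j < J, In (M * (a ^ 2) ^ (j + 1)) n then 1 else 0 with hgd
  have hcard : (((Ico w (w + N)).filter (fun n => ∀ j < J, In (M * (a ^ 2) ^ (j + 1)) n)).card : ℝ) = ∑ j ∈ range N, gd (w + j) := by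
    rw [card_filter]
    push_cast
    rw [sum_Ico_eq_sum_range, Nat.add_sub_cancel_left]
  rw [hcard]
  calc ∑ j ∈ range N, gd (w + j) ≤ ∑ j ∈ range N, T (w + j) := by
        refine sum_le_sum fun j _ => ?_
        by_cases hall : ∀ i < J, In (M * (a ^ 2) ^ (i + 1)) (w + j)
        · have : gd (w + j) = 1 := if_pos hall
          rw [this]
          exact hT1 (w + j) (Nat.le_add_right _ _) hall
        · have : gd (w + j) = 0 := if_neg hall
          rw [this]
          exact hT0 _
    _ ≤ 4 * N * av Q T := hfej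
    _ ≤ 4 * N * (2 * (1 - ep / 2) ^ J) := by gcongr
    _ = _ := by ring

/-- The integers up to `x` without a reversed length between `M` and `K`. -/
def NG (x M K : ℝ) : Set ℕ := {n : ℕ | (n : ℝ) ≤ x ∧ ∀ k : ℕ, M ≤ k → (k : ℝ) ≤ K → k < n → In k n}

theorem final : ∃ c C : ℝ, 0 < c ∧ ∀ x M K : ℝ, 1 ≤ x → 1 ≤ M → M ≤ K → Real.log K * Real.log (K / M) ≤ c * Real.log x →
    ((NG x M K).ncard : ℝ) ≤ C * x * (M / K) ^ c := by
  classical
  obtain ⟨k0, a, hk0, ha10, hcount⟩ := count_G
  have he := ep_pos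
  have hep1 : ep ≤ 1 / 10 := by
    unfold ep ts BB
    norm_num
  have har : (10 : ℝ) ≤ a := by exact_mod_cast ha10
  have hk0r : (2 : ℝ) ≤ k0 := by exact_mod_cast hk0
  set L := Real.log ((a : ℝ) ^ 2) with hL
  have hL1 : 1 ≤ L := by
    rw [hL, Real.le_log_iff_exp_le (by positivity)]
    have := Real.exp_one_lt_d9
    nlinarith
  set L0 := Real.log (2 * k0) with hL0
  have hL00 : 0 ≤ L0 := Real.log_nonneg (by linarith)
  set c := ep / (2 * L) with hc
  have hc0 : 0 < c := by positivity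
  have hcL : c * L = ep / 2 := by rw [hc]; field_simp
  have hc1 : c ≤ 1 / 20 := by nlinarith
  refine ⟨c, 12 * k0 ^ 2 + 16 * Real.exp (L0 + 1) + 6, hc0, fun x M K hx hM hMK hcond => ?_⟩
  have hx0 : 0 < x := by linarith
  have hM0 : 0 < M := by linarith
  have hK0 : 0 < K := by linarith
  set X := Real.log x with hX
  have hX0 : 0 ≤ X := Real.log_nonneg hx
  have hxX : x = Real.exp X := (Real.exp_log hx0).symm
  set D := Real.log (K / M) with hD
  have hD0 : 0 ≤ D := Real.log_nonneg (by rw [one_le_div hM0]; exact hMK)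
  have hDe : D = Real.log K - Real.log M := by rw [hD, Real.log_div hK0.ne' hM0.ne']
  have hlM0 : 0 ≤ Real.log M := Real.log_nonneg hM
  have hlK0 : 0 ≤ Real.log K := Real.log_nonneg (hM.trans hMK)
  have hP : (M / K) ^ c = Real.exp (-(c * D)) := by
    rw [Real.rpow_def_of_pos (by positivity), Real.log_div hM0.ne' hK0.ne', hDe]
    congr 1
    ring
  rw [hP]
  set P := Real.exp (-(c * D)) with hPdef
  have hP0 : 0 < P := Real.exp_pos _
  have hfloor : (((Set.Iic ⌊x⌋₊ : Set ℕ).ncard : ℕ) : ℝ) ≤ 2 * x := by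
    have h1 : (Set.Iic ⌊x⌋₊ : Set ℕ).ncard = ⌊x⌋₊ + 1 := by
      rw [← Finset.coe_Iic, Set.ncard_coe_finset, Nat.card_Iic]
    rw [h1]
    push_cast
    have := Nat.floor_le hx0.le
    linarith
  have hNGsub : NG x M K ⊆ Set.Iic ⌊x⌋₊ := fun n hn => Nat.le_floor hn.1
  have htriv : ((NG x M K).ncard : ℝ) ≤ 2 * x := by
    have h1 := Set.ncard_le_ncard hNGsub (Set.finite_Iic _)
    refine le_trans ?_ hfloor
    exact_mod_cast h1
  rcases lt_or_ge D 1 with hD1 | hD1
  · have h1 : Real.exp (-1) ≤ P := Real.exp_le_exp.2 (by nlinarith)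
    have h2 : 1 / 3 ≤ Real.exp (-1) := by
      rw [Real.exp_neg, one_div]
      refine inv_anti₀ (Real.exp_pos 1) ?_
      have := Real.exp_one_lt_d9
      linarith
    have h3 : 2 ≤ (12 * (k0 : ℝ) ^ 2 + 16 * Real.exp (L0 + 1) + 6) * P := by
      have h4 : 0 ≤ 12 * (k0 : ℝ) ^ 2 + 16 * Real.exp (L0 + 1) := by positivity
      nlinarith
    calc ((NG x M K).ncard : ℝ) ≤ 2 * x := htriv
      _ ≤ ((12 * (k0 : ℝ) ^ 2 + 16 * Real.exp (L0 + 1) + 6) * P) * x := by gcongr
      _ = _ := by ring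
  · have hlKX : Real.log K ≤ c * X := by nlinarith
    have hlKD : D ≤ Real.log K := by linarith
    set M1 := max ⌈M⌉₊ k0 with hM1
    have hM1k : k0 ≤ M1 := le_max_right _ _
    have hMM1 : M ≤ M1 := (Nat.le_ceil M).trans (by exact_mod_cast le_max_left ⌈M⌉₊ k0)
    have hM1u : (M1 : ℝ) ≤ 2 * k0 * M := by
      have h1 : (⌈M⌉₊ : ℝ) ≤ 2 * M := by
        have := (Nat.ceil_lt_add_one hM0.le).le
        linarith
      rw [hM1]
      push_cast
      refine max_le ?_ ?_
      · calc (⌈M⌉₊ : ℝ) ≤ 2 * M := h1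
          _ ≤ k0 * (2 * M) := le_mul_of_one_le_left (by positivity) (by linarith)
          _ = _ := by ring
      · nlinarith
    have hM1p : (0 : ℝ) < M1 := by linarith
    set t := (Real.log K - Real.log M1) / L with ht
    set J := ⌊t⌋₊ with hJ
    have hL0' : 0 < L := by linarith
    have hlM1 : Real.log M1 ≤ L0 + Real.log M := by
      rw [hL0, ← Real.log_mul (by positivity) hM0.ne']
      exact Real.log_le_log hM1p hM1u
    have hJt : t < J + 1 := Nat.lt_floor_add_one t
    have hJlow : D - L0 - L ≤ L * J := by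
      rw [ht, div_lt_iff₀ hL0'] at hJt
      nlinarith
    have hJup : 1 ≤ J → L * J ≤ Real.log K - Real.log M1 := by
      intro h1
      have h2 : (J : ℝ) ≤ t := Nat.floor_le (by
        by_contra hneg
        push Not at hneg
        have : J = 0 := Nat.floor_of_nonpos hneg.le
        omega)
      rw [ht, le_div_iff₀ hL0'] at h2
      linarith
    set K1 := M1 * (a ^ 2) ^ J with hK1
    have hlogK1 : Real.log (K1 : ℝ) = Real.log M1 + L * J := by
      rw [hK1]
      push_cast
      rw [Real.log_mul hM1p.ne' (by positivity), Real.log_pow, hL]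
      ring
    have hK1p : (0 : ℝ) < K1 := by
      rw [hK1]
      push_cast
      positivity
    have hK1K : 1 ≤ J → (K1 : ℝ) ≤ K := by
      intro h1
      rw [← Real.log_le_log_iff hK1p hK0, hlogK1]
      have := hJup h1
      linarith
    have hK1u : (K1 : ℝ) ≤ 2 * k0 * K := by
      rcases Nat.eq_zero_or_pos J with h0 | h0
      · rw [hK1, h0, pow_zero, mul_one]
        refine hM1u.trans ?_
        gcongr
      · refine (hK1K h0).trans ?_
        nlinarith
    have hM1n : 1 ≤ M1 := by omega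
    have hK1n : 1 ≤ K1 := Nat.mul_pos hM1n (Nat.pow_pos (Nat.pow_pos (by omega)))
    set w := 2 * K1 ^ 2 + K1 with hw
    set N := ⌊x⌋₊ + 1 with hN
    have hN1 : 1 ≤ N := by omega
    have hNx : x ≤ N := by
      rw [hN]
      push_cast
      exact (Nat.lt_floor_add_one x).le
    have hN2 : (N : ℝ) ≤ 2 * x := by
      rw [hN]
      push_cast
      have := Nat.floor_le hx0.le
      linarith
    have hKN : K1 ^ (4 * J) ≤ 2 * N := by
      rcases Nat.eq_zero_or_pos J with h0 | h0
      · rw [h0, mul_zero, pow_zero]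
        omega
      · have h1 : ((K1 ^ (4 * J) : ℕ) : ℝ) ≤ N := by
          push_cast
          refine le_trans ?_ hNx
          calc (K1 : ℝ) ^ (4 * J) ≤ K ^ (4 * J) := by
                have := hK1K h0
                gcongr
            _ = Real.exp (4 * (Real.log K * J)) := by
                rw [← Real.exp_log hK0, ← Real.exp_nat_mul, Real.log_exp]
                congr 1
                push_cast
                ring
            _ ≤ Real.exp X := by
                refine Real.exp_le_exp.2 ?_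
                have h2 := hJup h0
                have h3 : (J : ℝ) ≤ D := by
                  have h4 : Real.log M ≤ Real.log M1 := Real.log_le_log hM0 hMM1
                  have h5 : (J : ℝ) ≤ L * J := le_mul_of_one_le_left (Nat.cast_nonneg J) hL1
                  linarith
                have h4 : Real.log K * J ≤ Real.log K * D := by gcongr
                nlinarith
            _ = x := hxX.symm
        have h2 : K1 ^ (4 * J) ≤ N := by exact_mod_cast h1
        omega
    have hfin := hcount M1 J w N hM1k le_rfl hN1 hKN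
    have hsub : NG x M K ⊆ ((range w ∪ (Ico w (w + N)).filter (fun n => ∀ j < J, In (M1 * (a ^ 2) ^ (j + 1)) n) : Finset ℕ) : Set ℕ) := by
      intro n hn
      rw [mem_coe, mem_union, mem_range, mem_filter, mem_Ico]
      by_cases hnw : n < w
      · exact Or.inl hnw
      · refine Or.inr ⟨⟨not_lt.1 hnw, ?_⟩, fun i hi => ?_⟩
        · have h1 : n ≤ ⌊x⌋₊ := Nat.le_floor hn.1
          omega
        · have h1 : M1 * (a ^ 2) ^ (i + 1) ≤ K1 :=
            Nat.mul_le_mul_left _ (Nat.pow_le_pow_right (Nat.pow_pos (by omega)) (by omega))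
          refine hn.2 _ ?_ ?_ ?_
          · refine hMM1.trans ?_
            have h2 : M1 ≤ M1 * (a ^ 2) ^ (i + 1) := Nat.le_mul_of_pos_right _ (Nat.pow_pos (Nat.pow_pos (by omega)))
            exact_mod_cast h2
          · refine le_trans ?_ (hK1K (by omega))
            exact_mod_cast h1
          · have h2 : K1 ≤ K1 ^ 2 := Nat.le_self_pow two_ne_zero K1
            omega
    have hcard : ((NG x M K).ncard : ℝ) ≤ w + (((Ico w (w + N)).filter (fun n => ∀ j < J, In (M1 * (a ^ 2) ^ (j + 1)) n)).card : ℝ) := by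
      have h1 := Set.ncard_le_ncard hsub (finite_toSet _)
      rw [Set.ncard_coe_finset] at h1
      have h2 := card_union_le (range w) ((Ico w (w + N)).filter (fun n => ∀ j < J, In (M1 * (a ^ 2) ^ (j + 1)) n))
      rw [card_range] at h2
      exact_mod_cast h1.trans h2
    have F1 : (w : ℝ) ≤ 12 * (k0 : ℝ) ^ 2 * x * P := by
      have h1 : (w : ℝ) ≤ 3 * (K1 : ℝ) ^ 2 := by
        rw [hw]
        push_cast
        have h0 : (K1 : ℝ) ≤ (K1 : ℝ) ^ 2 := le_self_pow₀ (by exact_mod_cast hK1n) two_ne_zero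
        linarith
      have h2 : (K1 : ℝ) ^ 2 ≤ (2 * k0 * K) ^ 2 := by gcongr
      have h3 : K ^ 2 ≤ x * P := by
        rw [hxX, hPdef, ← Real.exp_add, ← Real.exp_log hK0, ← Real.exp_nat_mul]
        refine Real.exp_le_exp.2 ?_
        push_cast
        nlinarith
      calc (w : ℝ) ≤ 3 * (K1 : ℝ) ^ 2 := h1
        _ ≤ 3 * (2 * k0 * K) ^ 2 := by gcongr
        _ = 12 * (k0 : ℝ) ^ 2 * K ^ 2 := by ring
        _ ≤ 12 * (k0 : ℝ) ^ 2 * (x * P) := by gcongr
        _ = _ := by ring
    have F2 : 8 * (N : ℝ) * (1 - ep / 2) ^ J ≤ 16 * Real.exp (L0 + 1) * x * P := by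
      have h1 : (1 - ep / 2) ^ J ≤ Real.exp (L0 + 1) * P := by
        have h2 : 1 - ep / 2 ≤ Real.exp (-(ep / 2)) := by
          have := Real.add_one_le_exp (-(ep / 2))
          linarith
        calc (1 - ep / 2) ^ J ≤ Real.exp (-(ep / 2)) ^ J := by
              have : 0 ≤ 1 - ep / 2 := by linarith
              gcongr
          _ = Real.exp (-(c * (L * J))) := by
              rw [← Real.exp_nat_mul]
              congr 1
              rw [← mul_assoc, hcL]
              ring
          _ ≤ Real.exp (L0 + 1 + -(c * D)) := by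
              refine Real.exp_le_exp.2 ?_
              have h3 : c * (D - L0 - L) ≤ c * (L * J) := by gcongr
              have h4 : c * (D - L0 - L) = c * D - c * L0 - ep / 2 := by rw [← hcL]; ring
              nlinarith
          _ = _ := by rw [Real.exp_add]
      calc 8 * (N : ℝ) * (1 - ep / 2) ^ J ≤ 8 * (2 * x) * (Real.exp (L0 + 1) * P) := by
            have : 0 ≤ (1 - ep / 2) ^ J := by
              have : 0 ≤ 1 - ep / 2 := by linarith
              positivity
            gcongr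
        _ = _ := by ring
    have F3 : 0 ≤ 6 * x * P := by positivity
    calc ((NG x M K).ncard : ℝ) ≤ w + 8 * (N : ℝ) * (1 - ep / 2) ^ J := by linarith
      _ ≤ 12 * (k0 : ℝ) ^ 2 * x * P + 16 * Real.exp (L0 + 1) * x * P := add_le_add F1 F2
      _ ≤ 12 * (k0 : ℝ) ^ 2 * x * P + 16 * Real.exp (L0 + 1) * x * P + 6 * x * P := by linarith
      _ = _ := by ring

end LCF
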