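import Pool.Agent.LCF.Blk

/-!
# LCF, part B: the product over all scales
-/

set_option autoImplicit false

namespace LCF

open Finset Function ArithmeticFunction Filter Topology LCB LCD LCE

/-- Lower ends of the blocks. -/
def lo (M A : ℕ) : ℕ → ℕ
  | 0 => 0
  | l + 1 => M * A ^ l

/-- The blocks. -/
def Bk (M A l : ℕ) : Finset ℕ := pr (lo M A l) (M * A ^ l)

theorem pr_union {a b c : ℕ} (hab : a ≤ b) (hbc : b ≤ c) : pr a c = pr a b ∪ pr b c := by
  ext p
  rw [mem_union, mem_pr, mem_pr, mem_pr]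
  constructor
  · rintro ⟨h1, h2⟩
    rcases le_or_gt p b with h | h
    · exact Or.inl ⟨⟨h1.1, h⟩, h2⟩
    · exact Or.inr ⟨⟨h, h1.2⟩, h2⟩
  · rintro (⟨h1, h2⟩ | ⟨h1, h2⟩)
    · exact ⟨⟨h1.1, h1.2.trans hbc⟩, h2⟩
    · exact ⟨⟨lt_of_le_of_lt hab h1.1, h1.2⟩, h2⟩

theorem pr_disj (a b c : ℕ) : Disjoint (pr a b) (pr b c) := by
  rw [disjoint_left]
  intro d h1 h2
  rw [mem_pr] at h1 h2
  omega

theorem Uf_split {M A : ℕ} (hA : 1 ≤ A) (j k n : ℕ) :
    Uf (pr 0 (M * A ^ j)) k n = ∑ l ∈ range (j + 1), Uf (Bk M A l) k n := by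
  induction j with
  | zero => simp [Bk, lo]
  | succ j ih =>
    rw [sum_range_succ, ← ih]
    have h1 : M * A ^ j ≤ M * A ^ (j + 1) := Nat.mul_le_mul_left _ (Nat.pow_le_pow_right hA (by omega))
    have h2 : pr 0 (M * A ^ (j + 1)) = pr 0 (M * A ^ j) ∪ Bk M A (j + 1) := pr_union (Nat.zero_le _) h1
    rw [h2]
    have h3 : Disjoint (pr 0 (M * A ^ j)) (Bk M A (j + 1)) := pr_disj _ _ _
    unfold Uf
    rw [sum_union h3]

theorem sK_ge {K a : ℕ} (hK : 1 ≤ K) (ha : 1 ≤ a) (t : ℕ) : (a : ℝ) ^ t * sK K ≤ sK (K * (a ^ 2) ^ t) := by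
  have hKr : (1 : ℝ) ≤ K := by exact_mod_cast hK
  have har : (1 : ℝ) ≤ a := by exact_mod_cast ha
  have h0 : (0 : ℝ) ≤ (a : ℝ) ^ t := by positivity
  have h1 : (K : ℝ) ≤ ((K * (a ^ 2) ^ t : ℕ) : ℝ) := by
    have : K ≤ K * (a ^ 2) ^ t := Nat.le_mul_of_pos_right _ (Nat.pow_pos (Nat.pow_pos ha))
    exact_mod_cast this
  have h2 : Real.log K ≤ Real.log ((K * (a ^ 2) ^ t : ℕ) : ℝ) := Real.log_le_log (by linarith) h1
  have h3 : 0 ≤ Real.log (K : ℝ) := Real.log_nonneg hKr
  unfold sK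
  rw [← Real.sqrt_sq h0, ← Real.sqrt_mul (sq_nonneg _)]
  refine Real.sqrt_le_sqrt ?_
  have h4 : ((a : ℝ) ^ t) ^ 2 * (2 * (K : ℝ) * Real.log K) = 2 * ((K * (a ^ 2) ^ t : ℕ) : ℝ) * Real.log K := by
    push_cast
    rw [← pow_mul, ← pow_mul, mul_comm t 2]
    ring
  rw [h4]
  gcongr

theorem sK_pos {K : ℕ} (hK : 2 ≤ K) : 0 < sK K := by
  have hKr : (2 : ℝ) ≤ K := by exact_mod_cast hK
  have h1 : 0 < Real.log (K : ℝ) := Real.log_pos (by linarith)
  unfold sK
  exact Real.sqrt_pos.2 (by positivity)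

theorem sum_sK {M a m J : ℕ} (hM : 2 ≤ M) (ha : 2 ≤ a) :
    ∑ j ∈ Ico m J, 1 / sK (M * (a ^ 2) ^ (j + 1)) ≤ 2 / (a * sK (M * (a ^ 2) ^ m)) := by
  have har : (2 : ℝ) ≤ a := by exact_mod_cast ha
  have hA1 : 1 ≤ a ^ 2 := Nat.one_le_pow _ _ (by omega)
  have hKm : 2 ≤ M * (a ^ 2) ^ m := hM.trans (Nat.le_mul_of_pos_right _ (Nat.pow_pos hA1))
  have hs := sK_pos hKm
  set s := sK (M * (a ^ 2) ^ m) with hsdef
  have ha0 : (0 : ℝ) < a := by linarith
  have h1 : ∀ d : ℕ, 1 / sK (M * (a ^ 2) ^ (m + d + 1)) ≤ 1 / (a * s) * (1 / 2) ^ d := by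
    intro d
    have h2 := sK_ge (K := M * (a ^ 2) ^ m) (a := a) (by omega) (by omega) (d + 1)
    have e : M * (a ^ 2) ^ m * (a ^ 2) ^ (d + 1) = M * (a ^ 2) ^ (m + d + 1) := by
      rw [mul_assoc, ← pow_add]
      congr 2
    rw [e] at h2
    have h3 : (a : ℝ) * s * 2 ^ d ≤ (a : ℝ) ^ (d + 1) * s := by
      rw [pow_succ]
      have h4 : (2 : ℝ) ^ d ≤ (a : ℝ) ^ d := pow_le_pow_left₀ (by norm_num) har d
      calc (a : ℝ) * s * 2 ^ d ≤ (a : ℝ) * s * (a : ℝ) ^ d := by gcongr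
        _ = _ := by ring
    calc 1 / sK (M * (a ^ 2) ^ (m + d + 1)) ≤ 1 / ((a : ℝ) * s * 2 ^ d) :=
          one_div_le_one_div_of_le (by positivity) (h3.trans h2)
      _ = 1 / (a * s) * (1 / 2) ^ d := by
          rw [one_div_pow]
          field_simp
  rw [sum_Ico_eq_sum_range]
  calc ∑ d ∈ range (J - m), 1 / sK (M * (a ^ 2) ^ (m + d + 1)) ≤ ∑ d ∈ range (J - m), 1 / (a * s) * (1 / 2 : ℝ) ^ d :=
        sum_le_sum fun d _ => h1 d
    _ = 1 / (a * s) * ∑ d ∈ range (J - m), (1 / 2 : ℝ) ^ d := by rw [mul_sum]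
    _ ≤ 1 / (a * s) * 2 := by
        have := sum_geometric_two_le (J - m)
        gcongr
    _ = _ := by ring

/-- Averages of products of hyperbolic cosines. -/
theorem av_cosh_le {Q : ℕ} {r : ℕ → ℕ → ℝ} {B : ℝ} (s : Finset ℕ) (W : ℕ → ℝ)
    (h : ∀ sg : ℕ → ℝ, (∀ j, |sg j| ≤ 1) → av Q (fun n => W n * Real.exp (kap * ∑ j ∈ s, sg j * r j n)) ≤ B) :
    av Q (fun n => W n * ∏ j ∈ s, ((Real.exp (kap * r j n) + Real.exp (-(kap * r j n))) / 2)) ≤ B := by
  induction s using Finset.induction_on generalizing W with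
  | empty =>
    have := h (fun _ => 0) (fun _ => by simp)
    simpa using this
  | insert i s hi ih =>
    have h1 := ih (fun n => W n * Real.exp (kap * r i n)) (fun sg hsg => by
      have h2 := h (Function.update sg i 1) (fun j => by
        by_cases hj : j = i
        · subst hj
          simp
        · rw [Function.update_of_ne hj]
          exact hsg j)
      refine le_trans (le_of_eq (congrArg (av Q) (funext fun n => ?_))) h2
      rw [sum_insert hi, Function.update_self, mul_assoc, ← Real.exp_add]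
      congr 2
      rw [mul_add, one_mul]
      congr 2
      refine sum_congr rfl fun j hj => ?_
      have hji : j ≠ i := by
        rintro rfl
        exact hi hj
      rw [Function.update_of_ne hji])
    have h2 := ih (fun n => W n * Real.exp (-(kap * r i n))) (fun sg hsg => by
      have h2 := h (Function.update sg i (-1)) (fun j => by
        by_cases hj : j = i
        · subst hj
          simp
        · rw [Function.update_of_ne hj]
          exact hsg j)
      refine le_trans (le_of_eq (congrArg (av Q) (funext fun n => ?_))) h2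
      rw [sum_insert hi, Function.update_self, mul_assoc, ← Real.exp_add]
      congr 2
      rw [mul_add]
      have e : kap * (-1 * r i n) = -(kap * r i n) := by ring
      rw [e]
      congr 2
      refine sum_congr rfl fun j hj => ?_
      have hji : j ≠ i := by
        rintro rfl
        exact hi hj
      rw [Function.update_of_ne hji])
    have e : ∀ n, W n * ∏ j ∈ insert i s, ((Real.exp (kap * r j n) + Real.exp (-(kap * r j n))) / 2) =
        (1 / 2) * ((W n * Real.exp (kap * r i n)) * ∏ j ∈ s, ((Real.exp (kap * r j n) + Real.exp (-(kap * r j n))) / 2)) +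
        (1 / 2) * ((W n * Real.exp (-(kap * r i n))) * ∏ j ∈ s, ((Real.exp (kap * r j n) + Real.exp (-(kap * r j n))) / 2)) := by
      intro n
      rw [prod_insert hi]
      ring
    simp only [e]
    rw [av_add, av_mul_left, av_mul_left]
    linarith

/-- The mean of the total test function. -/
theorem av_total {M a J Q : ℕ} (hM : 2 ≤ M) (ha : 2 ≤ a) (ha2 : 10000000000000 ≤ (a : ℝ) ^ 2 * ep ^ 2) (hQ : 0 < Q)
    (hQd : ∀ p ∈ pr 0 (M * (a ^ 2) ^ J), p ∣ Q)
    (hF : ∀ j, j < J → av Q (fun n => Fm (uu (M * (a ^ 2) ^ j) (M * (a ^ 2) ^ (j + 1)) n + dl)) ≤ 1 - ts / 400) :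
    av Q (fun n => ∏ j ∈ range J, (Fm (uu (M * (a ^ 2) ^ j) (M * (a ^ 2) ^ (j + 1)) n + dl) +
      Bq * rr (M * (a ^ 2) ^ j) (M * (a ^ 2) ^ (j + 1)) n ^ 2)) ≤ 2 * (1 - ep / 2) ^ J := by
  have hts := ts_pos
  have he := ep_pos
  set A := a ^ 2 with hA
  have hA1 : 1 ≤ A := Nat.one_le_pow _ _ (by omega)
  have har : (2 : ℝ) ≤ a := by exact_mod_cast ha
  have ha0 : (0 : ℝ) < a := by linarith
  set k : ℕ → ℕ := fun j => M * A ^ (j + 1) with hk
  set F : ℕ → ℕ → ℝ := fun j n => Fm (uu (M * A ^ j) (k j) n + dl) with hFdef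
  set r : ℕ → ℕ → ℝ := fun j n => rr (M * A ^ j) (k j) n with hr
  have hmono : ∀ i j, i ≤ j → M * A ^ i ≤ M * A ^ j := fun i j h => Nat.mul_le_mul_left _ (Nat.pow_le_pow_right hA1 h)
  have hM1 : ∀ i, 2 ≤ M * A ^ i := fun i => hM.trans (Nat.le_mul_of_pos_right _ (Nat.pow_pos hA1))
  have hsk : ∀ j, 0 < sK (k j) := fun j => sK_pos (hM1 (j + 1))
  have hF0 : ∀ j n, 0 ≤ F j n := fun j n => Fm_nonneg _
  -- first step
  have h1 : av Q (fun n => ∏ j ∈ range J, (F j n + Bq * r j n ^ 2)) ≤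
      av Q (fun n => (∏ j ∈ range J, (F j n + ep)) * ∏ j ∈ range J, ((Real.exp (kap * r j n) + Real.exp (-(kap * r j n))) / 2)) := by
    refine av_mono Q fun n => ?_
    rw [← prod_mul_distrib]
    refine prod_le_prod (fun j _ => ?_) fun j _ => H_le _ _
    have h2 : 0 ≤ Bq * r j n ^ 2 := by unfold Bq; positivity
    have := hF0 j n
    linarith
  refine h1.trans ?_
  refine av_cosh_le (range J) _ fun sg hsg => ?_
  -- blocks
  have hlo : ∀ l, lo M A l ≤ M * A ^ l := by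
    intro l
    cases l with
    | zero => exact Nat.zero_le _
    | succ l => exact hmono l (l + 1) (Nat.le_succ l)
  have hBp : ∀ l, ∀ p ∈ Bk M A l, p.Prime := fun l p hp => (mem_pr.1 hp).2
  have hBQ : ∀ l, l ≤ J → ∀ p ∈ Bk M A l, p ∣ Q := fun l hl p hp => hQd p (pr_sub (hmono l J hl) hp)
  set V : ℕ → ℕ → ℝ := fun l n => ∑ j ∈ Ico l J, sg j * (Uf (Bk M A l) (k j) n / sK (k j)) with hV
  have hsum : ∀ n, ∑ j ∈ range J, sg j * r j n = ∑ l ∈ range (J + 1), V l n := by
    intro n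
    have h2 : ∀ j ∈ range J, sg j * r j n = ∑ l ∈ range (j + 1), sg j * (Uf (Bk M A l) (k j) n / sK (k j)) := by
      intro j _
      change sg j * (Uf (pr 0 (M * A ^ j)) (k j) n / sK (k j)) = _
      rw [Uf_split hA1 j, sum_div, mul_sum]
    rw [sum_congr rfl h2]
    refine sum_comm' ?_
    intro x y
    rw [mem_range, mem_range, mem_range, mem_Ico]
    omega
  -- factors
  set G : ℕ → ℕ → ℝ := fun l n => match l with
    | 0 => Real.exp (kap * V 0 n)
    | l + 1 => (F l n + ep) * Real.exp (kap * V (l + 1) n) with hG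
  have hfac : ∀ n, (∏ j ∈ range J, (F j n + ep)) * Real.exp (kap * ∑ j ∈ range J, sg j * r j n) = ∏ l ∈ range (J + 1), G l n := by
    intro n
    rw [hsum n, mul_sum, Real.exp_sum, prod_range_succ', prod_range_succ', ← mul_assoc, ← prod_mul_distrib]
  simp only [hfac]
  set q : ℕ → ℕ := fun l => qs (lo M A l) (M * A ^ l) with hq
  have hUper : ∀ l j, Periodic (fun n => Uf (Bk M A l) j n) (q l) := fun l j =>
    per_sum fun p hp => per_of_dvd (per_comp (X_per p j) (fun x => Real.log p * x)) (dvd_prod_of_mem _ hp)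
  have hVper : ∀ l, Periodic (V l) (q l) := fun l =>
    per_sum fun j _ => per_comp (hUper l (k j)) (fun x => sg j * (x / sK (k j)))
  have hGper : ∀ l, Periodic (G l) (q l) := by
    intro l
    cases l with
    | zero => exact per_comp (hVper 0) (fun x => Real.exp (kap * x))
    | succ l =>
      have h2 : Periodic (fun n => F l n + ep) (q (l + 1)) := per_comp (hUper (l + 1) (k l)) (fun x => Fm (x / sK (k l) + dl) + ep)
      exact per_mul h2 (per_comp (hVper (l + 1)) (fun x => Real.exp (kap * x)))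
  have hqd : ∀ l ∈ range (J + 1), q l ∣ Q := by
    intro l hl
    rw [mem_range] at hl
    refine Finset.prod_dvd_of_isRelPrime ?_ fun p hp => hBQ l (by omega) p hp
    intro p hp p' hp' hpp
    exact Nat.coprime_iff_isRelPrime.1 ((Nat.coprime_primes (hBp l p hp) (hBp l p' hp')).2 hpp)
  have hqc : ∀ l ∈ range (J + 1), ∀ l' ∈ range (J + 1), l ≠ l' → Nat.Coprime (q l) (q l') := by
    have key : ∀ l l', l < l' → M * A ^ l ≤ lo M A l' := by
      intro l l' h
      cases l' with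
      | zero => omega
      | succ l' => exact hmono l l' (by omega)
    intro l _ l' _ hne
    refine qs_coprime ?_
    rcases lt_or_gt_of_ne hne with h | h
    · exact Or.inl (key l l' h)
    · exact Or.inr (key l' l h)
  rw [av_prod' hQ (fun l _ => hGper l) hqd hqc, prod_range_succ']
  -- exponential moments
  have hvS : ∀ l, vS (Bk M A l) ≤ sK (M * A ^ l) ^ 2 := by
    intro l
    have h2 := hM1 l
    have h3 : (2 : ℝ) ≤ ((M * A ^ l : ℕ) : ℝ) := by exact_mod_cast h2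
    have h4 : 0 ≤ Real.log ((M * A ^ l : ℕ) : ℝ) := Real.log_nonneg (by linarith)
    unfold sK
    rw [Real.sq_sqrt (by positivity)]
    exact vS_pr_le (le_refl _) (by omega)
  have hmgf : ∀ l, l ≤ J → ∀ θ : ℝ, av Q (fun n => Real.exp (θ * V l n)) ≤ Real.exp (2 * θ ^ 2 / (a : ℝ) ^ 2) := by
    intro l hl θ
    exact mgf_V hQ (hBp l) (hBQ l hl) (sK_pos (hM1 l)) ha0 (hvS l) (Ico l J) k sg hsg (fun j _ => hsk j) (sum_sK hM ha) θ
  have hep1 : ep ≤ 1 / 10 := by
    unfold ep ts BB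
    norm_num
  have g0 : av Q (G 0) ≤ 2 := by
    refine (hmgf 0 (Nat.zero_le _) kap).trans ?_
    have h2 : 2 * kap ^ 2 / (a : ℝ) ^ 2 ≤ 1 / 2 := by
      rw [div_le_iff₀ (by positivity)]
      have h3 : ep ^ 2 ≤ 1 := pow_le_one₀ he.le (by linarith)
      unfold kap
      nlinarith
    refine (Real.exp_le_exp.2 h2).trans ?_
    have h4 := Real.exp_bound_div_one_sub_of_interval (x := (1 / 2 : ℝ)) (by norm_num) (by norm_num)
    refine h4.trans (by norm_num)
  have g1 : ∀ l ∈ range J, av Q (G (l + 1)) ≤ 1 - ep / 2 := by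
    intro l hl
    rw [mem_range] at hl
    refine av_factor (S := Bk M A (l + 1)) (k := k l) hQ (hBp (l + 1)) (hBQ (l + 1) hl) (hsk l) (hvS (l + 1)) (hF l hl) ha0 ?_
      (hmgf (l + 1) hl (2 * kap)) ha2
    refine av_odd fun n hn => ?_
    change ∑ j ∈ Ico (l + 1) J, sg j * (Uf (Bk M A (l + 1)) (k j) (Q - 1 - n) / sK (k j)) =
      -∑ j ∈ Ico (l + 1) J, sg j * (Uf (Bk M A (l + 1)) (k j) n / sK (k j))
    rw [← sum_neg_distrib]
    refine sum_congr rfl fun j _ => ?_
    rw [Uf_odd (hBQ (l + 1) hl) (k j) hn]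
    ring
  have hG0 : ∀ l n, 0 ≤ G l n := by
    intro l n
    cases l with
    | zero => exact (Real.exp_pos _).le
    | succ l => exact mul_nonneg (by have := hF0 l n; linarith) (Real.exp_pos _).le
  calc (∏ l ∈ range J, av Q (G (l + 1))) * av Q (G 0) ≤ (∏ _l ∈ range J, (1 - ep / 2)) * 2 := by
        have h2 : ∏ l ∈ range J, av Q (G (l + 1)) ≤ ∏ _l ∈ range J, (1 - ep / 2) :=
          prod_le_prod (fun l _ => av_nonneg Q (hG0 (l + 1))) g1
        have h3 : 0 ≤ av Q (G 0) := av_nonneg Q (hG0 0)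
        have h4 : 0 ≤ ∏ _l ∈ range J, (1 - ep / 2) := prod_nonneg fun _ _ => by linarith
        exact mul_le_mul h2 g0 h3 h4
    _ = _ := by rw [prod_const, card_range]; ring

end LCF
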